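import Pool.Agent.H26R2.DF.Main

/-! # Direct finiteness of group algebras and normal subgroups with indicable subgroups -/

set_option autoImplicit false

namespace Pool.Agent.Results.MP_03ceb7_al.LocallyIndicableKernels

open Pool.Agent.H26R2

/-- Matrices of size `n` over the group algebra `K[G]` with a one-sided inverse are invertible. -/
def MatrixFinite (K : Type) [Field K] (n : ℕ) (G : Type) [Group G] : Prop :=
  ∀ A B : Matrix (Fin n) (Fin n) (MonoidAlgebra K G), A * B = 1 → B * A = 1

/-- The group algebra `K[G]` is directly finite. -/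
def DirectlyFinite (K : Type) [Field K] (G : Type) [Group G] : Prop :=
  ∀ a b : MonoidAlgebra K G, a * b = 1 → b * a = 1

/-- Every nontrivial finitely generated subgroup of `N` has a nonzero homomorphism to the additive
group of `K`. -/
def KIndicable (K : Type) [Field K] {G : Type} [Group G] (N : Subgroup G) : Prop :=
  ∀ H : Subgroup G, H ≤ N → H.FG → H ≠ ⊥ → ∃ φ : H →* Multiplicative K, φ ≠ 1

/-- Every nontrivial finitely generated subgroup of `N` maps onto `ℤ`. -/
def LocallyIndicable {G : Type} [Group G] (N : Subgroup G) : Prop :=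
  ∀ H : Subgroup G, H ≤ N → H.FG → H ≠ ⊥ → ∃ φ : H →* Multiplicative ℤ, Function.Surjective φ

theorem kIndicable_of (K : Type) [Field K] {G : Type} [Group G] (N : Subgroup G)
    (h : LocallyIndicable N) : KIndicable K N := by
  intro H h1 h2 h3
  obtain ⟨φ, hφ⟩ := h H h1 h2 h3
  refine ⟨(AddMonoidHom.toMultiplicative (Int.castAddHom K)).comp φ, fun h0 => ?_⟩
  obtain ⟨x, hx⟩ := hφ (Multiplicative.ofAdd 1)
  have h4 := DFunLike.congr_fun h0 x
  rw [MonoidHom.comp_apply, hx] at h4
  have h5 : ((1 : ℤ) : K) = 0 := h4
  rw [Int.cast_one] at h5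
  exact one_ne_zero h5

/-- **Direct finiteness and normal subgroups with indicable finitely generated subgroups.**
Let `K` be a field of any characteristic.
(1) Let `N` be a normal subgroup of a group `G` such that every nontrivial finitely generated
subgroup of `N` has a nonzero homomorphism to `(K, +)`. If one-sided inverses of `n × n` matrices
over `K[G/N]` are two-sided, then so are those over `K[G]`; if `K[G/N]` is directly finite, then so
is `K[G]`.
(2) In particular this holds for all fields when `N` is locally indicable.
(3) If, for the finitely generated groups without a nontrivial normal subgroup as in (1), the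
one-sided inverses of `n × n` matrices over `K[G]` are two-sided, then this holds for all groups. -/
theorem result (K : Type) [Field K] :
    (∀ (G : Type) [Group G] (N : Subgroup G) [N.Normal], KIndicable K N →
      (∀ n : ℕ, MatrixFinite K n (G ⧸ N) → MatrixFinite K n G) ∧
      (DirectlyFinite K (G ⧸ N) → DirectlyFinite K G)) ∧
    (∀ (G : Type) [Group G] (N : Subgroup G) [N.Normal], LocallyIndicable N →
      (∀ n : ℕ, MatrixFinite K n (G ⧸ N) → MatrixFinite K n G) ∧
      (DirectlyFinite K (G ⧸ N) → DirectlyFinite K G)) ∧
    (∀ n : ℕ, (∀ (G : Type) [Group G], Group.FG G →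
        (∀ (N : Subgroup G) [N.Normal], KIndicable K N → N = ⊥) → MatrixFinite K n G) →
      ∀ (G : Type) [Group G], MatrixFinite K n G) := by
  have one : ∀ (G : Type) [Group G] (N : Subgroup G) [N.Normal], KIndicable K N →
      (∀ n : ℕ, MatrixFinite K n (G ⧸ N) → MatrixFinite K n G) ∧
      (DirectlyFinite K (G ⧸ N) → DirectlyFinite K G) := by
    intro G _ N _ hN
    have hd : IdemLI.Det K N := IdemLI.det_of_locInd N hN
    exact ⟨fun n h => DF.fin_of_det N hd h,
      fun h => DF.dirFin_iff.2 (DF.fin_of_det N hd (DF.dirFin_iff.1 h))⟩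
  refine ⟨one, fun G _ N _ hN => one G N (kIndicable_of K N hN), ?_⟩
  intro n h G _
  refine DF.reduction (fun G _ hfg hL => h G hfg (fun N _ hN => hL N ?_)) G
  exact IdemLI.det_of_locInd N hN

end Pool.Agent.Results.MP_03ceb7_al.LocallyIndicableKernels
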